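import Pool.Agent.TH680.OP.Conv
import Pool.Agent.H715R2.Uncountable
import Pool.Agent.H905R2.OppD

/-!
# Oppenheim's conjecture: no counterexample or uncountably many

Let `n ≥ 3` and let `L₁, …, L_n` be linearly independent real linear forms with
`|L₁(p) ⋯ L_n(p)| ≥ c > 0` for all nonzero integer points `p`. `Oppenheim L` is the conclusion of
Oppenheim's conjecture: some `A ∈ SL(n, ℤ)` with irreducible characteristic polynomial and real
eigenvalues leaves all the hyperplanes `L_i = 0` invariant. Two products of `n` linear forms are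
equivalent if one of them is, after a substitution from `GL(n, ℤ)`, a constant multiple of the
other one.

(1) If `L` is a counterexample to the conjecture then for every sequence of products of linear forms
there is a counterexample `L'`, with the same constant `c` and the same absolute determinant, which
is not equivalent to any of them. Moreover `L'` can be chosen in the closure of the orbit of `L`,
that is, `L'` is a limit of forms `diag(a) L γ`, where `γ ∈ GL(n, ℤ)` and `a` has positive entries
with product `1`. So this closure contains uncountably many pairwise inequivalent counterexamples.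

(2) Oppenheim's conjecture for `n` holds if (and only if) all counterexamples belong to countably
many classes of equivalent forms.

(The proof: a minimal set in the closure of the orbit, and the theorem `uncountable_family` of the
file `Pool/Agent/H715R2/Uncountable.lean` of the starting repository, which no starting hand-in
states, for forms that are not proportional to forms with integer coefficients. New here is that
forms with an invariant irreducible integral matrix are proportional to forms with integer
coefficients, `Pool/Agent/TH680/OP/Conv.lean`, the known converse in the problem file.)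
-/

set_option autoImplicit false

open Matrix H715R2

namespace Pool.Agent.Results.MP_77d073_nt.UncountablyManyCounterexamples

/-- The product of the linear forms `L i` at the point `x`. -/
noncomputable def prodForm {n : ℕ} (L : Fin n → Fin n → ℝ) (x : Fin n → ℤ) : ℝ :=
  ∏ i, ∑ j, L i j * (x j : ℝ)

/-- The conclusion of Oppenheim's conjecture. -/
def Oppenheim {n : ℕ} (L : Fin n → Fin n → ℝ) : Prop :=
  ∃ A : Matrix (Fin n) (Fin n) ℤ, A.det = 1 ∧
    Irreducible (A.charpoly.map (Int.castRingHom ℚ)) ∧
    (∀ z : ℂ, Polynomial.aeval z A.charpoly = 0 → z.im = 0) ∧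
    ∀ i : Fin n, ∀ x : Fin n → ℝ, ∑ j, L i j * x j = 0 →
      ∑ j, L i j * ((A.map (Int.cast : ℤ → ℝ)).mulVec x) j = 0

/-- `L` is a counterexample to Oppenheim's conjecture: the product is at least `c > 0` in absolute
value at the nonzero integer points, but the conclusion does not hold. -/
def Counterexample {n : ℕ} (c : ℝ) (L : Fin n → Fin n → ℝ) : Prop :=
  LinearIndependent ℝ L ∧ 0 < c ∧ (∀ p : Fin n → ℤ, p ≠ 0 → c ≤ |prodForm L p|) ∧ ¬ Oppenheim L

/-- The product of the forms `L` is a constant times the product of the forms `M`, after a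
substitution from `GL(n, ℤ)`. -/
def Equivalent {n : ℕ} (L M : Fin n → Fin n → ℝ) : Prop :=
  ∃ (γ : Matrix (Fin n) (Fin n) ℤ) (s : ℝ), IsUnit γ.det ∧
    ∀ x : Fin n → ℤ, prodForm L x = s * prodForm M (γ.mulVec x)

/-- The forms `diag(a) L γ`, where `γ ∈ GL(n, ℤ)` and the `a i` are positive with product `1`. -/
def Orbit {n : ℕ} (L : Fin n → Fin n → ℝ) : Set (Fin n → Fin n → ℝ) :=
  {M | ∃ (a : Fin n → ℝ) (γ : Matrix (Fin n) (Fin n) ℤ), (∀ i, 0 < a i) ∧ ∏ i, a i = 1 ∧
    IsUnit γ.det ∧ ∀ i j, M i j = a i * ∑ k, L i k * (γ k j : ℝ)}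

theorem orbit_eq {n : ℕ} (L : Fin n → Fin n → ℝ) : Orbit L = Orb (Matrix.of L) := by
  ext M
  constructor
  · rintro ⟨a, γ, h1, h2, h3, h4⟩
    refine ⟨a, γ, h1, h2, h3, ?_⟩
    ext i j
    rw [Matrix.mul_assoc, Matrix.diagonal_mul]
    simpa [Matrix.mul_apply, zR] using h4 i j
  · rintro ⟨a, γ, h1, h2, h3, h4⟩
    refine ⟨a, γ, h1, h2, h3, fun i j => ?_⟩
    rw [h4, Matrix.mul_assoc, Matrix.diagonal_mul]
    simp [Matrix.mul_apply, zR]

/-- **No counterexample to Oppenheim's conjecture, or uncountably many.** -/
theorem result (n : ℕ) (hn : 3 ≤ n) :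
    (∀ (c : ℝ) (L : Fin n → Fin n → ℝ), Counterexample c L →
      ∀ M : ℕ → Fin n → Fin n → ℝ, ∃ L' ∈ closure (Orbit L), Counterexample c L' ∧
        |(Matrix.of L').det| = |(Matrix.of L).det| ∧ ∀ k, ¬ Equivalent L' (M k)) ∧
    ((∀ (c : ℝ) (L : Fin n → Fin n → ℝ), ¬ Counterexample c L) ↔
      ∃ M : ℕ → Fin n → Fin n → ℝ, ∀ (c : ℝ) (L : Fin n → Fin n → ℝ), Counterexample c L →
        ∃ k, Equivalent L (M k)) := by
  have h1 : ∀ (c : ℝ) (L : Fin n → Fin n → ℝ), Counterexample c L →
      ∀ M : ℕ → Fin n → Fin n → ℝ, ∃ L' ∈ closure (Orbit L), Counterexample c L' ∧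
        |(Matrix.of L').det| = |(Matrix.of L).det| ∧ ∀ k, ¬ Equivalent L' (M k) := by
    rintro c L ⟨hL, hc, hlow, hopp⟩ M
    have hg : (Matrix.of L).det ≠ 0 := Pool.Agent.H905R2.Opp.det_ne hL
    have hint : ¬ PropInt (Matrix.of L) := fun h =>
      hopp (Pool.Agent.H905R2.Opp.opp_of_propInt (by omega) hL ⟨c, hc, hlow⟩ h)
    obtain ⟨g', hg', hnu, hint', hne⟩ := uncountable_family hn hg hc (fun m hm => hlow m hm) hint
      (fun k => Matrix.of (M k))
    have hdet : |(Matrix.of g').det| = |(Matrix.of L).det| := abs_det_closure hg'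
    have hdet0 : (Matrix.of g').det ≠ 0 := by
      intro h0
      rw [h0, abs_zero] at hdet
      exact hg (abs_eq_zero.1 hdet.symm)
    refine ⟨g', by rw [orbit_eq]; exact hg', ⟨?_, hc, fun p hp => hnu p hp, ?_⟩, hdet, ?_⟩
    · have h2 : IsUnit (Matrix.of g') := by
        rw [Matrix.isUnit_iff_isUnit_det]
        exact isUnit_iff_ne_zero.2 hdet0
      exact Matrix.linearIndependent_rows_iff_isUnit.2 h2
    · rintro ⟨A, _, hirr, _, hinv⟩
      exact hint' (Pool.Agent.TH680.OP.propInt_of_rs (by omega) hdet0 hirr hinv)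
    · rintro k ⟨γ, s, hγ, h⟩
      obtain ⟨x, hx⟩ := hne k γ s hγ
      exact hx (h x)
  refine ⟨h1, fun h => ⟨fun _ => 0, fun c L hL => absurd hL (h c L)⟩, ?_⟩
  rintro ⟨M, hM⟩ c L hL
  obtain ⟨L', _, hL', _, hne⟩ := h1 c L hL M
  obtain ⟨k, hk⟩ := hM c L' hL'
  exact hne k hk

end Pool.Agent.Results.MP_77d073_nt.UncountablyManyCounterexamples
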