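import Mathlib
import Pool.Agent.TH871.LF.Final

/-! # MP_77d073_nt: the minimum of the product of `n` real linear forms

For all large `n` and all linearly independent real linear forms `L₁, …, Lₙ` in `n` variables
(the rows of an invertible matrix `g`) there is a nonzero integer point at which
`|L₁ ⋯ Lₙ| ≤ |det g| / 7.7 ^ n`; hence `ν(L₁, …, Lₙ) ≤ |det g| / 7.7 ^ n`.

Earlier bases: `e = 2.718…` (Minkowski), `√32.561… = 5.706…` (Rogers 1950). -/

namespace Pool.Agent.Results.MP_77d073_nt.UniversalProductBound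

theorem result : ∃ n₀ : ℕ, ∀ n ≥ n₀, ∀ g : Matrix (Fin n) (Fin n) ℝ, g.det ≠ 0 →
    ∃ p : Fin n → ℤ, p ≠ 0 ∧
      |∏ i, ∑ j, g i j * (p j : ℝ)| ≤ |g.det| / (77 / 10) ^ n := by
  obtain ⟨n0, h⟩ := Pool.Agent.TH871.LF.main
  refine ⟨n0, fun n hn g hg => ?_⟩
  obtain ⟨p, hp, hb⟩ := h n hn g hg
  exact ⟨p, hp, hb⟩

end Pool.Agent.Results.MP_77d073_nt.UniversalProductBound
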